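import Pool.Agent.W76.MO.Stmts
import Pool.Agent.H382R2.Zeta1

/-!
# Task MO-ZA: under RH, `-ζ'/ζ(s) - 1/(s-1)` is `O(log |t|)` to the right of `1/2 + ε`
-/

set_option autoImplicit false

namespace Pool.Agent.W613.MO

open Complex Filter Topology Set Metric

/-- Bound for the logarithmic derivative in a zero-free disc (Borel-Caratheodory and Cauchy). -/
theorem logDeriv_zero_free {g : ℂ → ℂ} {c : ℂ} {r r2 B : ℝ} (hr : 0 < r) (hr2 : 0 ≤ r2)
    (h2r : r2 < r) (hB : 0 < B)
    (hg : AnalyticOnNhd ℂ g (ball c r)) (hg0 : ∀ z ∈ ball c r, g z ≠ 0)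
    (hb : ∀ z ∈ ball c r, ‖g z‖ ≤ Real.exp B * ‖g c‖) {z : ℂ} (hz : z ∈ closedBall c r2) :
    ‖deriv g z / g z‖ ≤ 16 * r / (r - r2) ^ 2 * B := by
  have hcr : c ∈ ball c r := mem_ball_self hr
  have hqd : DifferentiableOn ℂ (fun z => deriv g z / g z) (ball c r) := by
    intro w hw
    exact ((hg w hw).deriv.div (hg w hw) (hg0 w hw)).differentiableAt.differentiableWithinAt
  obtain ⟨h, hc0, hh⟩ := hqd.isExactOn_ball.with_val_at c 0
  have hexp : ∀ z ∈ ball c r, g z = g c * Complex.exp (h z) := by
    have hconst : ∀ z ∈ ball c r, g z * Complex.exp (-h z) = g c * Complex.exp (-h c) := by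
      intro z hz
      have hd : ∀ w ∈ ball c r, HasDerivAt (fun w => g w * Complex.exp (-h w)) 0 w := by
        intro w hw
        have h1 : HasDerivAt (fun w => g w * Complex.exp (-h w))
            (deriv g w * Complex.exp (-h w) + g w * (Complex.exp (-h w) * -(deriv g w / g w))) w :=
          (hg w hw).differentiableAt.hasDerivAt.mul (hh w hw).neg.cexp
        have hGw := hg0 w hw
        have h2 : deriv g w * Complex.exp (-h w) +
            g w * (Complex.exp (-h w) * -(deriv g w / g w)) = 0 := by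
          field_simp
          ring
        rw [h2] at h1
        exact h1
      exact isOpen_ball.is_const_of_deriv_eq_zero (isConnected_ball hr).isPreconnected
        (fun w hw => (hd w hw).differentiableAt.differentiableWithinAt)
        (fun w hw => (hd w hw).deriv) hz (mem_ball_self hr)
    intro z hz
    have h1 := hconst z hz
    rw [hc0, neg_zero, Complex.exp_zero, mul_one] at h1
    rw [← h1, mul_assoc, ← Complex.exp_add]
    simp
  have hgc : 0 < ‖g c‖ := norm_pos_iff.2 (hg0 c hcr)
  have hre : ∀ z ∈ ball c r, (h z).re ≤ B := by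
    intro z hz
    have h1 := hb z hz
    rw [hexp z hz, norm_mul, Complex.norm_exp, mul_comm] at h1
    exact Real.exp_le_exp.1 (le_of_mul_le_mul_right h1 hgc)
  rw [mem_closedBall, dist_eq_norm] at hz
  have h1 : DifferentiableOn ℂ (fun w => h (c + w)) (ball 0 r) := by
    intro w hw
    have hcw : c + w ∈ ball c r := by
      rw [mem_ball, dist_eq_norm, add_sub_cancel_left]
      simpa using hw
    have := (hh (c + w) hcw).differentiableAt
    exact (this.comp w (by fun_prop : DifferentiableAt ℂ (fun w => c + w) w)).differentiableWithinAt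
  have h2 : MapsTo (fun w => h (c + w)) (ball 0 r) {z | z.re ≤ B} := by
    intro w hw
    have hcw : c + w ∈ ball c r := by
      rw [mem_ball, dist_eq_norm, add_sub_cancel_left]
      simpa using hw
    exact hre _ hcw
  -- radius of the intermediate disc
  set e : ℝ := (r - r2) / 2 with he
  have he0 : 0 < e := by rw [he]; linarith
  have hbd : ∀ u : ℂ, ‖u - c‖ ≤ r - e → ‖h u‖ ≤ 2 * B * r / e := by
    intro u hu
    have h3 : u - c ∈ ball (0:ℂ) r := by
      rw [mem_ball, dist_zero_right]
      linarith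
    have h4 := Complex.borelCaratheodory_zero hB h1 h2 hr h3 (by simp [hc0])
    simp only [add_sub_cancel] at h4
    have h5 : e ≤ r - ‖u - c‖ := by linarith
    refine h4.trans ?_
    have h6 : ‖u - c‖ ≤ r := by linarith
    gcongr
  have hzb : z ∈ ball c r := by
    rw [mem_ball, dist_eq_norm]; linarith
  have hdz : deriv h z = deriv g z / g z := (hh z hzb).deriv
  have hsub : closedBall z e ⊆ ball c r := by
    intro u hu
    rw [mem_closedBall, dist_eq_norm] at hu
    rw [mem_ball, dist_eq_norm]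
    have : ‖u - c‖ ≤ ‖u - z‖ + ‖z - c‖ := by
      have := norm_add_le (u - z) (z - c)
      simpa using this
    have : r2 + e < r := by rw [he]; linarith
    linarith
  have hdc : DiffContOnCl ℂ h (ball z e) := by
    have : DifferentiableOn ℂ h (closedBall z e) := fun u hu =>
      (hh u (hsub hu)).differentiableAt.differentiableWithinAt
    exact this.diffContOnCl_ball (Subset.refl _)
  have h7 := Complex.norm_deriv_le_of_forall_mem_sphere_norm_le he0 hdc (C := 2 * B * r / e)
    (by
      intro u hu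
      rw [mem_sphere, dist_eq_norm] at hu
      refine hbd u ?_
      have h8 : ‖u - c‖ ≤ ‖u - z‖ + ‖z - c‖ := by
        have := norm_add_le (u - z) (z - c)
        simpa using this
      have : r2 + e = r - e := by rw [he]; ring
      linarith)
  rw [hdz] at h7
  refine h7.trans (le_of_eq_of_le ?_ (le_refl (8 * r / (r - r2) ^ 2 * B)) |>.trans ?_)
  · rw [he]
    have : r - r2 ≠ 0 := by linarith
    field_simp
    ring
  · have : 0 ≤ r / (r - r2) ^ 2 * B := by positivity
    have e1 : 8 * r / (r - r2) ^ 2 * B = 8 * (r / (r - r2) ^ 2 * B) := by ring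
    have e2 : 16 * r / (r - r2) ^ 2 * B = 16 * (r / (r - r2) ^ 2 * B) := by ring
    rw [e1, e2]
    linarith

/-- the entire function `(w - 1) ζ(w)` -/
noncomputable def Z1 : ℂ → ℂ := Function.update (fun w : ℂ => (w - 1) * riemannZeta w) 1 1

theorem Z1_ne {s : ℂ} (hs : s ≠ 1) : Z1 s = (s - 1) * riemannZeta s := by
  rw [Z1, Function.update_of_ne hs]

theorem Z1_one : Z1 1 = 1 := by
  rw [Z1, Function.update_self]

theorem Z1_entire : Differentiable ℂ Z1 := by
  unfold Z1
  rw [← differentiableOn_univ,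
    ← differentiableOn_compl_singleton_and_continuousAt_iff (c := 1) Filter.univ_mem]
  refine ⟨?_, ?_⟩
  · intro w hw
    have hw1 : w ≠ 1 := by
      simpa using hw
    have h : DifferentiableAt ℂ (fun w : ℂ => (w - 1) * riemannZeta w) w :=
      (differentiableAt_id.sub_const 1).mul (differentiableAt_riemannZeta hw1)
    refine (h.congr_of_eventuallyEq ?_).differentiableWithinAt
    filter_upwards [isOpen_compl_singleton.mem_nhds (show w ∈ ({1} : Set ℂ)ᶜ by simpa using hw1)]
      with z hz
    rw [Function.update_of_ne (by simpa using hz)]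
  · rw [continuousAt_update_same]
    exact riemannZeta_residue_one

theorem Z1_ne_zero (hRH : RiemannHypothesis) {s : ℂ} (hs : 1 / 2 < s.re) : Z1 s ≠ 0 := by
  by_cases h1 : s = 1
  · rw [h1, Z1_one]; exact one_ne_zero
  · rw [Z1_ne h1]
    refine mul_ne_zero (sub_ne_zero.2 h1) fun h0 => ?_
    have := hRH s h0 (by
      rintro ⟨n, hn⟩
      rw [hn] at hs
      simp only [neg_mul, neg_re, mul_re, re_ofNat, add_re, natCast_re, one_re, im_ofNat, add_im,
        natCast_im, one_im, add_zero, mul_zero, sub_zero] at hs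
      have : (0 : ℝ) ≤ n := Nat.cast_nonneg n
      linarith) h1
    linarith

/-- growth of `(s-1) ζ(s)` -/
theorem Z1_growth : ∃ C A : ℝ, 1 ≤ C ∧ 1 ≤ A ∧ ∀ s : ℂ, 1 / 4 ≤ s.re → s.re ≤ 6 →
    ‖Z1 s‖ ≤ C * (|s.im| + 3) ^ A := by
  obtain ⟨C, A, hC, hA, hz⟩ := SG.zeta_growth
  have hcomp : IsCompact ((Set.Icc (1 / 4 : ℝ) 6) ×ℂ (Set.Icc (-1 : ℝ) 1)) :=
    isCompact_Icc.reProdIm isCompact_Icc
  obtain ⟨C1, hC1⟩ := hcomp.exists_bound_of_continuousOn (f := Z1) Z1_entire.continuous.continuousOn
  refine ⟨6 * C + |C1|, A + 1, by linarith [abs_nonneg C1], by linarith, fun s hs1 hs2 => ?_⟩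
  have h3 : (1 : ℝ) ≤ |s.im| + 3 := by linarith [abs_nonneg s.im]
  have hone : (1 : ℝ) ≤ (|s.im| + 3) ^ (A + 1) := Real.one_le_rpow h3 (by linarith)
  rcases le_or_gt 1 |s.im| with h | h
  · have hs : s ≠ 1 := by
      rintro rfl
      norm_num at h
    rw [Z1_ne hs, norm_mul]
    have h4 := hz s (by linarith) hs2 h
    have h5 : ‖s - 1‖ ≤ 6 * (|s.im| + 3) := by
      have h6 := Complex.norm_le_abs_re_add_abs_im (s - 1)
      simp only [sub_re, one_re, sub_im, one_im, sub_zero] at h6
      have h7 : |s.re - 1| ≤ 5 := by rw [abs_le]; constructor <;> linarith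
      linarith [abs_nonneg s.im]
    calc ‖s - 1‖ * ‖riemannZeta s‖ ≤ 6 * (|s.im| + 3) * (C * (|s.im| + 3) ^ A) := by
          refine mul_le_mul h5 (h4.trans ?_) (norm_nonneg _) (by positivity)
          have : |s.im| ^ A ≤ (|s.im| + 3) ^ A :=
            Real.rpow_le_rpow (abs_nonneg _) (by linarith) (by linarith)
          nlinarith
      _ = 6 * C * (|s.im| + 3) ^ (A + 1) := by
          rw [Real.rpow_add (by linarith), Real.rpow_one]; ring
      _ ≤ (6 * C + |C1|) * (|s.im| + 3) ^ (A + 1) := by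
          have := abs_nonneg C1
          gcongr
          linarith
  · have h4 := hC1 s (by
      rw [Complex.mem_reProdIm]
      rw [abs_lt] at h
      exact ⟨⟨hs1, hs2⟩, ⟨h.1.le, h.2.le⟩⟩)
    have h5 := le_abs_self C1
    have h6 := abs_nonneg C1
    calc ‖Z1 s‖ ≤ C1 := h4
      _ ≤ (6 * C + |C1|) * 1 := by linarith
      _ ≤ _ := by gcongr

/-- Task ZA -/
theorem za : Pool.Agent.W76.MO.T_ZA := by
  intro hRH
  refine ⟨fun s => -(deriv Z1 s / Z1 s), ?_, ?_, ?_⟩
  · intro s hs
    have h1 : DifferentiableAt ℂ (deriv Z1) s :=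
      (Z1_entire.analyticAt s).deriv.differentiableAt
    exact ((h1.div (Z1_entire s) (Z1_ne_zero hRH hs)).neg).differentiableWithinAt
  · intro s hs
    have hs1 : s ≠ 1 := by rintro rfl; simp at hs
    have hz0 : riemannZeta s ≠ 0 := riemannZeta_ne_zero_of_one_le_re hs.le
    have hd : HasDerivAt (fun w : ℂ => (w - 1) * riemannZeta w)
        (1 * riemannZeta s + (s - 1) * deriv riemannZeta s) s :=
      ((hasDerivAt_id s).sub_const 1).mul (differentiableAt_riemannZeta hs1).hasDerivAt
    have hd2 : HasDerivAt Z1 (1 * riemannZeta s + (s - 1) * deriv riemannZeta s) s := by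
      refine hd.congr_of_eventuallyEq ?_
      filter_upwards [isOpen_ne.mem_nhds hs1] with z hz
      exact Z1_ne hz
    have hs2 : s - 1 ≠ 0 := sub_ne_zero.2 hs1
    have h3 := ArithmeticFunction.LSeries_vonMangoldt_eq_deriv_riemannZeta_div hs
    show -(deriv Z1 s / Z1 s) = _
    rw [hd2.deriv, Z1_ne hs1, h3]
    field_simp
    ring
  · intro σ₀ hσ
    rcases lt_or_ge 2 σ₀ with h2 | h2
    · exact ⟨1, one_pos, fun s h3 h4 => absurd (h3.trans h4) (not_le.2 h2)⟩
    obtain ⟨C, A, hC, hA, hgr⟩ := Z1_growth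
    set K : ℝ := |Real.log (3 * C * 2 ^ A)| + A with hK
    have hK0 : 0 < K := by positivity
    refine ⟨16 * (3 / 2) / (σ₀ - 1 / 2) ^ 2 * K, by
      have : 0 < σ₀ - 1 / 2 := by linarith
      positivity, fun s hs1 hs2 => ?_⟩
    have him : (3 : ℝ) ≤ |s.im| + 3 := by linarith [abs_nonneg s.im]
    set L : ℝ := Real.log (|s.im| + 3) with hL
    have hL1 : 1 ≤ L := by
      rw [hL, Real.le_log_iff_exp_le (by linarith)]
      have := Real.exp_one_lt_d9
      linarith
    set c : ℂ := ⟨2, s.im⟩ with hc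
    have hcre : c.re = 2 := rfl
    have hcim : c.im = s.im := rfl
    have hball : ∀ z ∈ ball c (3 / 2), 1 / 2 < z.re ∧ z.re ≤ 6 ∧ |z.im| + 3 ≤ 2 * (|s.im| + 3) := by
      intro z hz
      rw [mem_ball, dist_eq_norm] at hz
      have h1 := (Complex.abs_re_le_norm (z - c)).trans_lt hz
      have h2 := (Complex.abs_im_le_norm (z - c)).trans_lt hz
      simp only [sub_re, sub_im, hcre, hcim] at h1 h2
      rw [abs_lt] at h1
      have h3 : |z.im| ≤ |z.im - s.im| + |s.im| := by
        have := abs_add_le (z.im - s.im) s.im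
        simpa using this
      exact ⟨by linarith [h1.1], by linarith [h1.2], by linarith [abs_nonneg s.im]⟩
    have hc1 : c ≠ 1 := by
      intro h
      have := congrArg Complex.re h
      rw [hcre, one_re] at this
      norm_num at this
    have hZc : 1 / 3 ≤ ‖Z1 c‖ := by
      rw [Z1_ne hc1, norm_mul]
      obtain ⟨hw0, hw1⟩ := SG.zeta_inv_bound c (by rw [hcre])
      rw [norm_inv] at hw1
      have hpos : 0 < ‖riemannZeta c‖ := norm_pos_iff.2 hw0
      have h3 : 1 / 3 ≤ ‖riemannZeta c‖ := by
        have := (inv_le_comm₀ hpos (by norm_num)).1 hw1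
        linarith
      have h4 : 1 ≤ ‖c - 1‖ := by
        have h5 := Complex.abs_re_le_norm (c - 1)
        simp only [sub_re, hcre, one_re] at h5
        norm_num at h5
        exact h5
      nlinarith
    have hB : ∀ z ∈ ball c (3 / 2), ‖Z1 z‖ ≤ Real.exp (K * L) * ‖Z1 c‖ := by
      intro z hz
      obtain ⟨h1, h2, h3⟩ := hball z hz
      have h4 := hgr z (by linarith) h2
      have hpos3 : (0 : ℝ) < |s.im| + 3 := by linarith
      have h5 : (|z.im| + 3) ^ A ≤ (2 * (|s.im| + 3)) ^ A :=
        Real.rpow_le_rpow (by positivity) h3 (by linarith)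
      have h6 : (2 * (|s.im| + 3)) ^ A = 2 ^ A * Real.exp (A * L) := by
        rw [Real.mul_rpow (by norm_num) hpos3.le, hL, Real.rpow_def_of_pos hpos3, mul_comm A]
      have h7 : 3 * C * 2 ^ A ≤ Real.exp (|Real.log (3 * C * 2 ^ A)| * L) := by
        have hpos : (0 : ℝ) < 3 * C * 2 ^ A := by positivity
        calc 3 * C * 2 ^ A = Real.exp (Real.log (3 * C * 2 ^ A)) := (Real.exp_log hpos).symm
          _ ≤ _ := Real.exp_le_exp.2 (by
            have h9 := le_abs_self (Real.log (3 * C * 2 ^ A))
            have h10 := abs_nonneg (Real.log (3 * C * 2 ^ A))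
            nlinarith)
      calc ‖Z1 z‖ ≤ C * (|z.im| + 3) ^ A := h4
        _ ≤ C * (2 ^ A * Real.exp (A * L)) := by rw [← h6]; gcongr
        _ = (3 * C * 2 ^ A) * Real.exp (A * L) * (1 / 3) := by ring
        _ ≤ Real.exp (|Real.log (3 * C * 2 ^ A)| * L) * Real.exp (A * L) * ‖Z1 c‖ := by
            gcongr
        _ = Real.exp (K * L) * ‖Z1 c‖ := by
            rw [← Real.exp_add]; congr 2; rw [hK]; ring
    have hfin := logDeriv_zero_free (g := Z1) (c := c) (r := 3 / 2) (r2 := 2 - σ₀) (B := K * L)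
      (by norm_num) (by linarith) (by linarith) (by positivity)
      (fun z _ => Z1_entire.analyticAt z)
      (fun z hz => Z1_ne_zero hRH (hball z hz).1) hB (z := s)
      (by
        rw [mem_closedBall, dist_eq_norm]
        have e : s - c = ((s.re - 2 : ℝ) : ℂ) := by
          apply Complex.ext <;> simp [hc]
        rw [e, Complex.norm_real, Real.norm_eq_abs, abs_le]
        constructor <;> linarith)
    rw [norm_neg]
    refine hfin.trans (le_of_eq ?_)
    have e1 : (3 / 2 : ℝ) - (2 - σ₀) = σ₀ - 1 / 2 := by ring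
    rw [e1]
    ring

end Pool.Agent.W613.MO
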